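import Pool.Agent.R349.GenSol3

/-!
# Regular solutions of exponential systems with algebraic parameters: genericity in small balls

Zilber's axioms say that the regular solutions `x` of a system `V_s : p(a, X, exp X) = b`, `s = (a, b)`, of `n` equations
in `n` unknowns are generic points `(x, exp x)` of the `n`-dimensional variety `V_s`, unless there is a reason for the
contrary: this is Schanuel's conjecture (SC) and the genericity in (SEAC)(i). We consider an arbitrary family of systems
(`a, p` algebraically independent) and the algebraic parameters `s` of height at most `T` and bounded degree in a ball of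
radius `T ^ (-η)`, for any `η > 0`: we show that the parameters for which a regular solution (of bounded norm, with
Jacobian bounded from below) is not generic for relations of bounded degree with coefficients of height at most `T ^ k` lie
on a number of hypersurfaces, of a degree, which do not depend on `T`, the ball, and the number field. More: the relations
are only required to hold up to `T ^ (-C)`, and their coefficients can be linear combinations of any given complex numbers
`ξ 1, …, ξ k` (the genericity over a tuple of transcendental numbers), with `C` independent of `ξ`.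

The definitions (`Pool.Agent.R349.GS`, `Pool.Agent.Y124`, `Pool.Agent.Y120`). The variables of the polynomials are
`A ⊕ (N ⊕ N)` : the parameters `a`, and `X`, `Y`; the parameters of the system are `s = (a, b)`, indexed by `A ⊕ N`.
* `gph w` : the point `(a, x, exp x)` for `w = (a, x)`; `sys p w` : the point `(a, p(a, x, exp x))`;
* `jac p w` : the Jacobian matrix of `x ↦ p(a, x, exp x)`, given by the partial derivatives of `p`;
* `Reg p k` : the `w = (a, x)` with `‖w‖ ≤ k` and `1 ≤ k * ‖det (jac p w)‖` (the regular solutions);
* `fam p q` : the family of the polynomials `a, p, q`;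
* `Gen k K io ξ T C v` : for all integers `c l s` of `K` with conjugates at most `T ^ k`: the polynomial of degree at most
  `k` in each variable with coefficients `γ l = ∑ s, ξ s * c l s` has at `v` a value of absolute value greater than
  `T ^ (-C)` times `|γ l|`, for all `l` with `γ l ≠ 0`; so `v` is no zero of such a polynomial;
* `Exc p q V k C η K io ξ T t₀` : the parameters `s` with coordinates in `K`, of height at most `T`, at distance at most
  `T ^ (-η)` from `t₀`, for which there is a solution `(a, x)` in `V` of `p(a, x, exp x) = b`, `s = (a, b)`, where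
  `q(a, x, exp x)` does not satisfy `Gen`;
* `Cov D m S` : `S` is covered by at most `m` hypersurfaces of degree at most `D`; `HtLe K T x` : the height of `x` is at
  most `T`.
-/

set_option autoImplicit false

namespace Pool.Agent.Results.MP_209724_lc.GenericSolutions

open MvPolynomial Pool.Agent Pool.Agent.R349.GS

theorem exc_mono {A N σ : Type} [Fintype A] [Fintype N] [Fintype σ] [DecidableEq N] [DecidableEq σ]
    (p : N → MvPolynomial (A ⊕ (N ⊕ N)) ℂ) (q : σ → MvPolynomial (A ⊕ (N ⊕ N)) ℂ) (V : Set (A ⊕ N → ℂ)) (k : ℕ)
    {C C' : ℕ} (hC : C ≤ C') (η : ℝ) (K : Type) [Field K] [NumberField K] (io : K →+* ℂ) (ξ : Fin k → ℂ) {T : ℝ}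
    (hT : 1 ≤ T) (t₀ : A ⊕ N → ℂ) : Exc p q V k C' η K io ξ T t₀ ⊆ Exc p q V k C η K io ξ T t₀ := by
  rintro s ⟨hs, e, he, rfl, w', hw', hw3, hgen⟩
  exact ⟨hs, e, he, rfl, w', hw', hw3, fun hg => hgen (gen_mono hT hC hg)⟩

/-- (1) Let `p i`, `i ∈ N`, and `q j`, `j ∈ σ`, be polynomials in `a, X, Y` such that `a, p, q` are algebraically
independent. For all `k` and `η > 0` there are `C` and `T₀` such that for all number fields `K` of degree at most `k`,
embedded in `ℂ`, all complex numbers `ξ 1, …, ξ k`, all `T ≥ T₀` and all points `t₀`: the parameters `s = (a, b)` over `K`,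
of height at most `T`, at distance at most `T ^ (-η)` from `t₀`, for which the system `p(a, x, exp x) = b` has a regular
solution (`‖(a, x)‖ ≤ k`, `|Jacobian| ≥ 1 / k`) such that the numbers `q(a, x, exp x)` satisfy a relation of degree at
most `k` in each variable, with coefficients in `∑ s, ξ s * c s`, `c s` integers of `K` with conjugates at most `T ^ k`,
up to `T ^ (-C)`, lie on at most `C` hypersurfaces of degree at most `C`; hence for all finite subsets `B j` of `K` at most
`C ∑_j ∏_{i ≠ j} |B i|` of them have coordinates in the sets `B j`, and at most `C` if there is one parameter.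
(2) If `a, p` are algebraically independent, then (1) can be applied with `q` the coordinates in a set `J` of `n = |N|` of
the `2 n` coordinates `X, Y`; so (1) bears on the transcendence degree of `(x, exp x)`. -/
theorem result :
    (∀ (A N σ : Type) [Fintype A] [Fintype N] [Fintype σ] [DecidableEq A] [DecidableEq N] [DecidableEq σ] [Nonempty N]
      (p : N → MvPolynomial (A ⊕ (N ⊕ N)) ℂ) (q : σ → MvPolynomial (A ⊕ (N ⊕ N)) ℂ),
      AlgebraicIndependent ℂ (fam p q) → ∀ (k : ℕ) (η : ℝ), 0 < η → ∃ (C : ℕ) (T₀ : ℝ),
        ∀ (K : Type) [Field K] [NumberField K], Module.finrank ℚ K ≤ k →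
        ∀ (io : K →+* ℂ) (ξ : Fin k → ℂ) (T : ℝ), T₀ ≤ T → ∀ t₀ : A ⊕ N → ℂ,
          Y124.Cov C C (Exc p q (Reg p k) k C η K io ξ T t₀) ∧
          ∀ (B : A ⊕ N → Finset K) (E : Finset (A ⊕ N → K)),
            (∀ e ∈ E, (∀ j, e j ∈ B j) ∧ (fun j => io (e j)) ∈ Exc p q (Reg p k) k C η K io ξ T t₀) →
            E.card ≤ C * ∑ j, ∏ i ∈ Finset.univ.erase j, (B i).card) ∧
    ∀ (A N : Type) [Fintype A] [Fintype N] [DecidableEq A] [DecidableEq N] (p : N → MvPolynomial (A ⊕ (N ⊕ N)) ℂ),
      AlgebraicIndependent ℂ (Sum.elim (fun i : A => (X (Sum.inl i) : MvPolynomial (A ⊕ (N ⊕ N)) ℂ)) p) →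
      ∃ J : Finset (N ⊕ N), J.card = Fintype.card N ∧
        AlgebraicIndependent ℂ (fam p (fun j : J => X (Sum.inr (j : N ⊕ N)))) := by
  refine ⟨fun A N σ _ _ _ _ _ _ _ p q hp k η hη => ?_, fun A N _ _ _ _ p hp => exists_coords p hp⟩
  obtain ⟨C, T₀, H⟩ := exc_cov p q hp k η hη
  refine ⟨C + C * C, max T₀ 1, fun K _ _ hK io ξ T hT t₀ => ?_⟩
  have hT1 : 1 ≤ T := (le_max_right _ _).trans hT
  have h2 := H K hK io ξ T ((le_max_left _ _).trans hT) t₀
  have hsub := exc_mono p q (Reg p k) k (C := C) (C' := C + C * C) (by omega) η K io ξ hT1 t₀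
  refine ⟨h2.mono (by omega) (by omega) hsub, fun B E hE => ?_⟩
  refine (R349.MVB.cov_prod io B _ h2 E fun e he => ?_).trans (Nat.mul_le_mul_right _ (by omega))
  exact ⟨(hE e he).1, hsub (hE e he).2⟩

end Pool.Agent.Results.MP_209724_lc.GenericSolutions
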