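import Pool.Agent.R612.ZX.Main

/-!
# Systems `P_i(z) e^(z_i) = Q_i(z)` of exponential equations in a rational space

Axiom (SEAC) (i) for the varieties `V = {P_i(x) y_i = Q_i(x), i = 1, ..., n}` in `G_n` (the graphs
of rational maps from `ℂ^n` to the torus) asks for exponential points of `V` that are generic. For
one equation the first step in the known deductions of the genericity from (SC) is to show that
there are only finitely many solutions in a rational space of finite dimension. The theorem is the
version for systems, with an explicit bound that depends on the degrees and the dimension only, and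
for all translates of `V` by algebraic points of the torus together.
-/

set_option autoImplicit false

open Module

namespace Pool.Agent.Results.MP_209724_lc.RationalSystems

open Pool.Agent.R612.ZX

/-- **Main result.** Let `F` be a subfield of `ℂ`, `U` a `ℚ`-space of vectors in `ℂ^n` of finite
dimension `r`, and let `P_1, ..., P_n, Q_1, ..., Q_n` be polynomials in `n` variables over `F`, the
`P_i` of degree at most `a`, the `Q_i` of degree at most `b`. A solution is a vector `z` in `ℂ^n`
with `P_i(z) c_i e^(z_i) = Q_i(z)`, `P_i(z) ≠ 0`, `Q_i(z) ≠ 0` for all `i`, for some nonzero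
numbers `c_1, ..., c_n` which are algebraic over `F`. Let `N` be the set of all `u` in `U` such that
all `e^(u_i)` are algebraic over `F`.

(1) If `N = 0` then there are at most `binom((a + b + 1) r, r)` solutions in `U`.

(2) In general, if there is no nonzero `u` in `N` such that all the rational functions `Q_i / P_i`
have derivative zero in the direction `u`, then there are at most `binom((a + b + 1) r, r)`
solutions `z` in `U` whose coordinates are algebraically independent over the field generated by `F`
and the coordinates of the vectors in `N`. -/
theorem result (F : IntermediateField ℚ ℂ) {n : ℕ} (U : Submodule ℚ (Fin n → ℂ))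
    (hfd : FiniteDimensional ℚ U) (P Q : Fin n → MvPolynomial (Fin n) F) (a b : ℕ)
    (hP : ∀ i, (P i).totalDegree ≤ a) (hQ : ∀ i, (Q i).totalDegree ≤ b) :
    ((∀ u ∈ U, (∀ i, IsAlgebraic F (Complex.exp (u i))) → u = 0) →
      {z | z ∈ U ∧ IsSolution F P Q z}.encard ≤
        (((a + b + 1) * finrank ℚ U).choose (finrank ℚ U) : ℕ)) ∧
    ((∀ u ∈ U, (∀ i, IsAlgebraic F (Complex.exp (u i))) → (∀ i, Period (P i) (Q i) u) → u = 0) →
      {z | z ∈ U ∧ IsSolution F P Q z ∧ AlgebraicIndependent (logField F U) z}.encard ≤
        (((a + b + 1) * finrank ℚ U).choose (finrank ℚ U) : ℕ)) :=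
  ⟨count1 U hfd P Q hP hQ, count2 U hfd P Q hP hQ⟩

end Pool.Agent.Results.MP_209724_lc.RationalSystems
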