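import Pool.Agent.R347.BE.Sch
import Pool.Agent.R347.BE.Logs

/-!
# The axiom (SC) for the complex exponential function on large subspaces

Let `q_0, q_1, …` be a sequence of integers `≥ 2`, and let `tower h` be the `h`-fold iterate of
`n ↦ 2 ^ n`. A complex number is *approximable* if, for some `h` and every `κ`, for all large `k` it has
an algebraic approximation of degree at most `tower h (q_k)`, with a polynomial over `ℤ` with coefficients
of absolute value at most `tower h (q_k)`, and with an error of at most `1 / tower κ (q_k)`. A real number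
is *rationally approximable* if the approximations can be chosen in `ℚ`, with denominators at most
`tower h (q_k)`. The approximable numbers form an algebraically closed field `K`, the rationally approximable numbers
form a field `R`, and `R ⊆ K`. Let `L` be the `ℚ`-span of the logarithms of the primes, and `M` the `R`-span.

**Theorem.** (1) The logarithms of the primes are linearly independent over `R`, and `K ∩ M = 0`. So `K + M` is the direct sum of
`K` and of the spaces `R log p`.

(2) Let `w_1, …, w_n ∈ K + M` be linearly independent over `ℚ`, and `d` the dimension of the intersection of their `ℚ`-span with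
`L`. Then `ℚ(w_1, …, w_n, exp w_1, …, exp w_n)` has transcendence degree at least `n - d`, and at least `n - d + 1`
if `w_1, …, w_n ∈ M` and `d ≥ 1`.

(3) The axiom (SC) for `(ℂ, exp)` holds for all tuples of a `ℚ`-subspace `W ⊆ K + M` with `W ∩ L = 0`, and of
a `ℚ`-subspace `W ⊆ M` such that `W ∩ L` has dimension at most `1`; for instance for `W = K`, for `W = R log p`, and for all
the complements of `L` in `K + M`.

For the explicit sequence `q_k = 2 ^ e_k`, `e_0 = 1`, `e_(k + 1) = tower (k + 2) (e_k)` all the sums of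
numbers `1 / q_k` over arbitrary sets of `k` are in `R`, they are pairwise different, and `K` has transcendence
degree the cardinality of the continuum.

The main step: for distinct primes `p_1, …, p_r` the numbers `p_1 ^ (x_1) ⋯ p_r ^ (x_r)` for vectors `x ∈ R ^ r` which are
pairwise different modulo `ℤ ^ r` are linearly independent over `R`. For the proof we replace the exponents and the coefficients
by rational approximations. By the theorem of Besicovitch and Mordell the new sum does not vanish, and the product of its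
conjugates is a nonzero rational number with a known denominator. This gives a lower bound for the absolute value which is much
larger than the error.
-/

set_option autoImplicit false

namespace Pool.Agent.Results.MP_209724_lc.SchanuelOnSubspaces

/-- The `h`-fold iterate of `n ↦ 2 ^ n`. -/
def tower : ℕ → ℕ → ℕ
  | 0, q => q
  | h + 1, q => 2 ^ tower h q

/-- `a` is a zero of a nonzero polynomial over `ℤ` of degree at most `N` whose coefficients have absolute
value at most `N`. -/
def Bounded (N : ℕ) (a : ℂ) : Prop :=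
  ∃ P : Polynomial ℤ, P ≠ 0 ∧ P.natDegree ≤ N ∧ (∀ n, |P.coeff n| ≤ N) ∧ Polynomial.aeval a P = 0

/-- For some `h` and every `κ`, for all large `k` the number `z` has an algebraic approximation of
complexity at most `tower h (q k)` and with an error of at most `1 / tower κ (q k)`. -/
def Approximable (q : ℕ → ℕ) (z : ℂ) : Prop :=
  ∃ h : ℕ, ∀ κ : ℕ, ∃ k₀ : ℕ, ∀ k ≥ k₀, ∃ a : ℂ, Bounded (tower h (q k)) a ∧
    ‖z - a‖ ≤ ((tower κ (q k) : ℕ) : ℝ)⁻¹

/-- For some `h` and every `κ`, for all large `k` the real number `x` has a rational approximation with a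
denominator at most `tower h (q k)` and with an error of at most `1 / tower κ (q k)`. -/
def RationallyApproximable (q : ℕ → ℕ) (x : ℝ) : Prop :=
  ∃ h : ℕ, ∀ κ : ℕ, ∃ k₀ : ℕ, ∀ k ≥ k₀, ∃ (u : ℤ) (v : ℕ), 1 ≤ v ∧ v ≤ tower h (q k) ∧
    |x - u / v| ≤ ((tower κ (q k) : ℕ) : ℝ)⁻¹

/-- The exponents `e_0 = 1`, `e_(k + 1) = tower (k + 2) (e_k)`. -/
def e : ℕ → ℕ
  | 0 => 1
  | k + 1 => tower (k + 2) (e k)

/-- The explicit sequence `q_k = 2 ^ e_k`. -/
def q₀ (k : ℕ) : ℕ := 2 ^ e k

/-- The sum of the numbers `1 / q_k` over the elements `k` of the set `A`. -/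
noncomputable def number (A : Set ℕ) : ℝ :=
  ∑' k, Set.indicator A (fun k => 1 / (q₀ k : ℝ)) k

/-- the first statement in (1) -/
def Logarithms (R : IntermediateField ℚ ℝ) : Prop :=
  LinearIndependent R (fun p : Nat.Primes => Real.log (p : ℕ))

/-- the space `L` -/
noncomputable def L : Submodule ℚ ℂ :=
  Submodule.span ℚ {z | ∃ p : ℕ, p.Prime ∧ z = ((Real.log p : ℝ) : ℂ)}

/-- the space `M` -/
noncomputable def M (R : IntermediateField ℚ ℝ) : Submodule ℚ ℂ :=
  Submodule.span ℚ {z | ∃ (p : ℕ) (x : ℝ), p.Prime ∧ x ∈ R ∧ z = ((x * Real.log p : ℝ) : ℂ)}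

/-- the field `K` as a space -/
noncomputable def space (K : IntermediateField ℚ ℂ) : Submodule ℚ ℂ := Subalgebra.toSubmodule K.toSubalgebra

/-- the transcendence degree of `ℚ(w, exp w)` -/
noncomputable def td {n : ℕ} (w : Fin n → ℂ) : Cardinal :=
  Algebra.trdeg ℚ (IntermediateField.adjoin ℚ (Set.range w ∪ Set.range (fun i => Complex.exp (w i))))

/-- the number `d` -/
noncomputable def defect {n : ℕ} (w : Fin n → ℂ) : ℕ :=
  Module.finrank ℚ ↥(Submodule.span ℚ (Set.range w) ⊓ L)

/-- the statement (2) -/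
def Inequality (K : IntermediateField ℚ ℂ) (R : IntermediateField ℚ ℝ) : Prop :=
  ∀ (n : ℕ) (w : Fin n → ℂ), LinearIndependent ℚ w →
    ((∀ i, w i ∈ space K ⊔ M R) → (n : Cardinal) ≤ td w + defect w) ∧
    ((∀ i, w i ∈ M R) → 1 ≤ defect w → (n : Cardinal) + 1 ≤ td w + defect w)

/-- the axiom (SC) for the tuples of `W` -/
def SC (W : Submodule ℚ ℂ) : Prop :=
  ∀ (n : ℕ) (w : Fin n → ℂ), (∀ i, w i ∈ W) → LinearIndependent ℚ w → (n : Cardinal) ≤ td w

/-- the statement (3) -/
def Schanuel (K : IntermediateField ℚ ℂ) (R : IntermediateField ℚ ℝ) : Prop :=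
  (∀ W : Submodule ℚ ℂ, W ≤ space K ⊔ M R → W ⊓ L = ⊥ → SC W) ∧
  (∀ W : Submodule ℚ ℂ, W ≤ M R → Module.rank ℚ ↥(W ⊓ L) ≤ 1 → SC W) ∧
  SC (space K) ∧ ∀ p : ℕ, p.Prime → SC (Submodule.span ℚ {z | ∃ x ∈ R, z = ((x * Real.log p : ℝ) : ℂ)})

/-- the statements (1), (2), (3) -/
def Good (K : IntermediateField ℚ ℂ) (R : IntermediateField ℚ ℝ) : Prop :=
  Logarithms R ∧ space K ⊓ M R = ⊥ ∧ Inequality K R ∧ Schanuel K R

theorem tower_eq : tower = Pool.Agent.R347.LW.tow := by
  funext h q
  induction h with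
  | zero => rfl
  | succ h ih => rw [tower, Pool.Agent.R347.LW.tow, ih]

theorem approximable_iff (q : ℕ → ℕ) (z : ℂ) : Approximable q z ↔ Pool.Agent.R347.LW.Appr q z := by
  unfold Approximable Pool.Agent.R347.LW.Appr
  rw [tower_eq]
  rfl

theorem rationallyApproximable_iff (q : ℕ → ℕ) (x : ℝ) :
    RationallyApproximable q x ↔ Pool.Agent.R347.LW.RAppr q x := by
  unfold RationallyApproximable Pool.Agent.R347.LW.RAppr
  rw [tower_eq]

theorem e_eq : e = Pool.Agent.R347.LW.eT := by
  funext k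
  induction k with
  | zero => rfl
  | succ k ih => rw [e, Pool.Agent.R347.LW.eT, ih, tower_eq]

theorem q₀_eq : q₀ = Pool.Agent.R347.LW.qT := by
  funext k
  rw [q₀, Pool.Agent.R347.LW.qT, e_eq]

theorem number_eq : number = Pool.Agent.R347.LW.xiT := by
  funext A
  rw [number, Pool.Agent.R347.LW.xiT]
  refine tsum_congr fun k => ?_
  have h1 : 1 / (q₀ k : ℝ) = (1 / 2 : ℝ) ^ Pool.Agent.R347.LW.eT k := by
    rw [q₀, e_eq]
    push_cast
    rw [one_div, one_div, inv_pow]
  by_cases h : k ∈ A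
  · rw [Set.indicator_of_mem h, Pool.Agent.R347.LW.trT_of_mem h, h1]
  · rw [Set.indicator_of_notMem h, Pool.Agent.R347.LW.trT_of_notMem h]

section

open Pool.Agent.R347.LW Pool.Agent.R347.BE

variable {q : ℕ → ℕ} (hq : ∀ k, 2 ≤ q k)

theorem disj : space (UK hq) ⊓ M (UR hq) = ⊥ := by
  rw [eq_bot_iff]
  intro z hz
  by_contra h0
  exact exp_notMem hq hz.1 h0 (exp_mem hq hz.2)

theorem finite_int {n : ℕ} (w : Fin n → ℂ) :
    FiniteDimensional ℚ ↥(Submodule.span ℚ (Set.range w) ⊓ L) := by
  have : FiniteDimensional ℚ ↥(Submodule.span ℚ (Set.range w)) :=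
    FiniteDimensional.span_of_finite ℚ (Set.finite_range w)
  exact Submodule.finiteDimensional_inf_left _ _

theorem defect_ne {n : ℕ} (w : Fin n → ℂ) (h : 1 ≤ defect w) : Submodule.span ℚ (Set.range w) ⊓ L ≠ ⊥ := by
  intro h0
  unfold defect at h
  rw [h0, finrank_bot] at h
  omega

theorem inequality : Inequality (UK hq) (UR hq) := by
  intro n w hli
  exact ⟨fun hw => schanuel1 hq w hw hli, fun hw h => schanuel2 hq w hw hli (defect_ne w h)⟩

theorem span_le {n : ℕ} {w : Fin n → ℂ} {W : Submodule ℚ ℂ} (hw : ∀ i, w i ∈ W) :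
    Submodule.span ℚ (Set.range w) ⊓ L ≤ W ⊓ L :=
  inf_le_inf_right _ (Submodule.span_le.2 (by rintro _ ⟨i, rfl⟩; exact hw i))

theorem sc1 (W : Submodule ℚ ℂ) (hW : W ≤ space (UK hq) ⊔ M (UR hq)) (hL : W ⊓ L = ⊥) : SC W := by
  intro n w hw hli
  have h1 := (inequality hq n w hli).1 (fun i => hW (hw i))
  have h2 : Submodule.span ℚ (Set.range w) ⊓ L = ⊥ := by
    rw [eq_bot_iff, ← hL]
    exact span_le hw
  have h3 : defect w = 0 := by
    unfold defect
    rw [h2, finrank_bot]
  rw [h3, Nat.cast_zero, add_zero] at h1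
  exact h1

theorem sc2 (W : Submodule ℚ ℂ) (hW : W ≤ M (UR hq)) (hL : Module.rank ℚ ↥(W ⊓ L) ≤ 1) : SC W := by
  intro n w hw hli
  have h3 : defect w ≤ 1 := by
    unfold defect
    apply Module.finrank_le_of_rank_le
    rw [Nat.cast_one]
    exact (Submodule.rank_mono (span_le hw)).trans hL
  rcases Nat.lt_or_ge (defect w) 1 with h | h
  · have h4 : defect w = 0 := by omega
    have h1 := (inequality hq n w hli).1 (fun i => Submodule.mem_sup_right (hW (hw i)))
    rw [h4, Nat.cast_zero, add_zero] at h1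
    exact h1
  · have h4 : defect w = 1 := by omega
    have h1 := (inequality hq n w hli).2 (fun i => hW (hw i)) h
    rw [h4, Nat.cast_one, Cardinal.add_one_le_add_one_iff] at h1
    exact h1

theorem sc3 : SC (space (UK hq)) := by
  refine sc1 hq _ le_sup_left ?_
  rw [eq_bot_iff, ← disj hq]
  exact inf_le_inf_left _ (Lg_le _)

theorem mem_line {p : ℕ} {z : ℂ} (hz : z ∈ Submodule.span ℚ {z : ℂ | ∃ x ∈ UR hq, z = ((x * Real.log p : ℝ) : ℂ)}) :
    ∃ x ∈ UR hq, z = ((x * Real.log p : ℝ) : ℂ) := by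
  refine Submodule.span_induction (p := fun z _ => ∃ x ∈ UR hq, z = ((x * Real.log p : ℝ) : ℂ))
    (fun z h => h) ⟨0, (UR hq).zero_mem, by simp⟩ ?_ ?_ hz
  · rintro _ _ _ _ ⟨x, hx, rfl⟩ ⟨y, hy, rfl⟩
    exact ⟨x + y, (UR hq).add_mem hx hy, by rw [← Complex.ofReal_add]; congr 1; ring⟩
  · rintro a _ _ ⟨x, hx, rfl⟩
    refine ⟨(a : ℝ) * x, (UR hq).mul_mem (by simp) hx, ?_⟩
    rw [rat_smul, mul_assoc, Complex.ofReal_mul (a : ℝ)]
    simp

theorem sc4 {p : ℕ} (hp : p.Prime) :
    SC (Submodule.span ℚ {z : ℂ | ∃ x ∈ UR hq, z = ((x * Real.log p : ℝ) : ℂ)}) := by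
  intro n w hw hli
  choose x hx hwx using fun i => mem_line hq (hw i)
  have h1 : w = fun i => ((x i * Real.log p : ℝ) : ℂ) := funext hwx
  rw [h1] at hli ⊢
  refine schanuel hq hp x hx ?_
  rw [Fintype.linearIndependent_iff] at hli ⊢
  intro g hg
  refine hli g ?_
  have h2 : ∑ i, g i • ((x i * Real.log p : ℝ) : ℂ) = (((∑ i, g i • x i) * Real.log p : ℝ) : ℂ) := by
    rw [Finset.sum_mul, Complex.ofReal_sum]
    refine Finset.sum_congr rfl fun i _ => ?_
    rw [rat_smul, Algebra.smul_def, mul_assoc, Complex.ofReal_mul (algebraMap ℚ ℝ (g i))]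
    simp
  rw [h2, hg, zero_mul, Complex.ofReal_zero]

theorem good : Good (UK hq) (UR hq) :=
  ⟨logs_indep hq, disj hq, inequality hq, sc1 hq, sc2 hq, sc3 hq, fun _ hp => sc4 hq hp⟩

end

/-- **Main result.** -/
theorem result :
    (∀ q : ℕ → ℕ, (∀ k, 2 ≤ q k) → ∃ (K : IntermediateField ℚ ℂ) (R : IntermediateField ℚ ℝ),
      (∀ z, z ∈ K ↔ Approximable q z) ∧ (∀ x, x ∈ R ↔ RationallyApproximable q x) ∧ IsAlgClosed K ∧
      (∀ x ∈ R, (x : ℂ) ∈ K) ∧ Good K R) ∧
    (∀ k, 2 ≤ q₀ k) ∧ (∀ A : Set ℕ, RationallyApproximable q₀ (number A)) ∧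
    Function.Injective number ∧
    (∀ K : IntermediateField ℚ ℂ, (∀ z, z ∈ K ↔ Approximable q₀ z) →
      Algebra.trdeg ℚ K = Cardinal.continuum) := by
  refine ⟨fun q hq => ⟨Pool.Agent.R347.LW.UK hq, Pool.Agent.R347.LW.UR hq, fun z => (approximable_iff q z).symm,
    fun x => (rationallyApproximable_iff q x).symm, Pool.Agent.R347.LW.UK_closed hq, fun x hx => ?_, good hq⟩,
    ?_, fun A => ?_, ?_, fun K hK => ?_⟩
  · exact Pool.Agent.R347.LW.RAppr.appr hq hx
  · intro k
    rw [q₀_eq]
    exact Pool.Agent.R347.LW.two_le_qT k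
  · rw [rationallyApproximable_iff, q₀_eq, number_eq]
    exact Pool.Agent.R347.LW.xiT_rappr A
  · rw [number_eq]
    exact Pool.Agent.R347.LW.xiT_injective
  · have h1 : K = Pool.Agent.R347.LW.UK Pool.Agent.R347.LW.two_le_qT := by
      ext z
      rw [hK, approximable_iff, q₀_eq]
      rfl
    rw [h1]
    exact Pool.Agent.R347.LW.UK_trdeg _

end Pool.Agent.Results.MP_209724_lc.SchanuelOnSubspaces
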